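import Pool.Agent.R136.Mu.Jack1

set_option autoImplicit false

open MvPolynomial

namespace Pool.Agent.Results.MP_e74401_co.NotInSemiring

open Pool.Agent.R136.Mu

/-- Disproof of MP_e74401_co Q1.  In `n = 4` variables at `τ₀ = 1/11`, for
`λ = (4,2,0,0)` and `μ = (3,3,0,0)` (so `λ` majorizes `μ`), the normalized Jack difference
`P_λ/P_λ(1) - P_μ/P_μ(1)` is not in the Muirhead semiring. -/
theorem result : ∃ P Q : MvPolynomial (Fin 4) ℝ,
    IsJack (1 / 11) ![4, 2, 0, 0] P ∧ IsJack (1 / 11) ![3, 3, 0, 0] Q ∧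
    Majorizes (![4, 2, 0, 0] : Fin 4 → ℕ) ![3, 3, 0, 0] ∧
    normalized P - normalized Q ∉ muirheadSemiring 4 :=
  Pool.Agent.R136.Mu.main

end Pool.Agent.Results.MP_e74401_co.NotInSemiring
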